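import Pool.Agent.H964.CW.Stm

/-! # Project CW (helper964): from the raw form to the tail form -/

set_option autoImplicit false

open MeasureTheory ProbabilityTheory Filter Finset

namespace Pool.Agent.H549.CW

open Pool.Agent.H964.QC Pool.Agent.H964.CW

theorem rr_nonneg (n : ℕ) : 0 ≤ rr n := by
  unfold rr
  positivity

theorem RR_mono {a b : ℕ} (h : a ≤ b) : RR a ≤ RR b := by
  unfold RR
  refine Finset.sum_le_sum_of_subset_of_nonneg ?_ fun i _ _ => rr_nonneg i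
  exact Finset.Icc_subset_Icc_right h

/-- The arithmetic: `v = u^(1/40)`, `m = ⌊v^10⌋`. -/
theorem arith {CS D v Y0 Y : ℝ} {m : ℕ} (hCS : 1 ≤ CS) (hD : 1 ≤ D) (hv : 24 * CS * D ≤ v)
    (hY0 : 1 ≤ Y0) (hY0v : Y0 ≤ v ^ 5) (hm1 : 1 ≤ m) (hm : (m : ℝ) ≤ v ^ 10)
    (hm2 : v ^ 10 < m + 1) (hY : Y = Y0 + Real.log m) :
    1 ≤ Y ∧ CS * Y ≤ (24 * CS * D) ^ 40 * v ^ 30 ∧ CS * (m : ℝ) ^ 2 * Y ^ 2 ≤ v ^ 40 ∧
      v ^ 4 * (CS * (1 + D * Y)) ≤ m := by
  have hCD : 1 ≤ CS * D := by nlinarith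
  have hv24 : 24 ≤ v := by nlinarith
  have hvCS : 24 * CS ≤ v := by nlinarith
  have hv1 : 1 ≤ v := by linarith
  have hv0 : 0 < v := by linarith
  have hm0 : (1 : ℝ) ≤ m := by exact_mod_cast hm1
  have hlog : Real.log m ≤ 10 * v := by
    calc Real.log m ≤ Real.log (v ^ 10) := Real.log_le_log (by linarith) hm
      _ = 10 * Real.log v := by rw [Real.log_pow]; norm_num
      _ ≤ 10 * v := by
        have := Real.log_le_self hv0.le
        linarith
  have hlog0 : 0 ≤ Real.log m := Real.log_nonneg hm0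
  have hv5 : v ≤ v ^ 5 := le_self_pow₀ hv1 (by norm_num)
  have hY1 : 1 ≤ Y := by rw [hY]; linarith
  have hYle : Y ≤ 11 * v ^ 5 := by rw [hY]; linarith
  have hv5pos : 0 < v ^ 5 := by positivity
  have hv5one : 1 ≤ v ^ 5 := hv1.trans hv5
  refine ⟨hY1, ?_, ?_, ?_⟩
  · have h1 : 1 ≤ (24 * CS * D) ^ 40 := one_le_pow₀ (by nlinarith)
    have h2 : CS * Y ≤ v ^ 30 := by
      calc CS * Y ≤ CS * (11 * v ^ 5) := by gcongr
        _ ≤ v * v ^ 5 := by nlinarith
        _ = v ^ 6 := by ring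
        _ ≤ v ^ 30 := pow_le_pow_right₀ hv1 (by norm_num)
    have h3 : 0 ≤ v ^ 30 := by positivity
    nlinarith
  · calc CS * (m : ℝ) ^ 2 * Y ^ 2 ≤ CS * (v ^ 10) ^ 2 * (11 * v ^ 5) ^ 2 := by gcongr
      _ = (121 * CS) * v ^ 30 := by ring
      _ ≤ v ^ 10 * v ^ 30 := by
        have h1 : 121 * CS ≤ v ^ 10 := by
          calc 121 * CS ≤ (24 * CS) * 24 := by nlinarith
            _ ≤ v * v := by gcongr
            _ = v ^ 2 := by ring
            _ ≤ v ^ 10 := pow_le_pow_right₀ hv1 (by norm_num)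
        gcongr
      _ = v ^ 40 := by ring
  · have h1 : 1 + D * Y ≤ 12 * D * v ^ 5 := by
      have h2 : D * Y ≤ D * (11 * v ^ 5) := by gcongr
      have h3 : 1 ≤ D * v ^ 5 := by nlinarith
      nlinarith
    have h2 : v ^ 4 * (CS * (1 + D * Y)) ≤ v ^ 10 / 2 := by
      calc v ^ 4 * (CS * (1 + D * Y)) ≤ v ^ 4 * (CS * (12 * D * v ^ 5)) := by gcongr
        _ = v ^ 9 * (24 * CS * D) / 2 := by ring
        _ ≤ v ^ 9 * v / 2 := by gcongr
        _ = v ^ 10 / 2 := by ring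
    linarith

theorem t_LTB1 : S_LTB1 := by
  intro hRR hUU hUUC hraw C0 θ1 hC0 hθ1
  obtain ⟨CS, hCS, hraw⟩ := hraw C0 hC0
  obtain ⟨D, hD, hU⟩ := hUUC hRR hUU θ1 hθ1
  have hCD : 1 ≤ CS * D := by nlinarith
  have hK : 24 ≤ 24 * CS * D := by nlinarith
  have hKle : 24 * CS * D ≤ (24 * CS * D) ^ 40 := le_self_pow₀ (by linarith) (by norm_num)
  refine ⟨(24 * CS * D) ^ 40, by linarith, ?_⟩
  intro N0 M _ W hW Ω _ P _ s2 κ η w t T B u hs2 hs2C hN ht hB hN0 hG hθ hu hBu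
  have hC4 : 4 ≤ (24 * CS * D) ^ 40 := by linarith
  have hCD' : D ≤ (24 * CS * D) ^ 40 := by nlinarith
  obtain ⟨Y0, hY0⟩ : ∃ Y0, Y0 = 1 + Real.log B + Real.log (1 + (T : ℝ) / t) := ⟨_, rfl⟩
  rw [← hY0] at hu
  have hY01 : 1 ≤ Y0 := by
    have h1 := Real.log_nonneg hB
    have h2 : 0 ≤ Real.log (1 + (T : ℝ) / t) := by
      apply Real.log_nonneg
      have : 0 ≤ (T : ℝ) / t := by positivity
      linarith
    linarith
  have hY08 : 1 ≤ Y0 ^ 8 := one_le_pow₀ hY01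
  have huC : (24 * CS * D) ^ 40 ≤ u := by nlinarith
  have hu1 : 1 ≤ u := by linarith
  have hu0 : 0 < u := by linarith
  rcases Nat.eq_zero_or_pos T with rfl | hT
  · have h1 : {ω | ∑ z, w z * Zr W (cfg η ω) 0 z < Real.exp (-u)} = ∅ := by
      rw [Set.eq_empty_iff_forall_notMem]
      intro ω hω
      simp only [Zr, mul_one] at hω
      have h2 : ∑ z, w z < Real.exp (-u) := hω
      rw [hG.sum] at h2
      have h3 : Real.exp (-u) < 1 := by
        rw [Real.exp_lt_one_iff]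
        linarith
      linarith
    rw [h1, measureReal_empty]
    exact (Real.exp_pos _).le
  · obtain ⟨v, hv⟩ : ∃ v, v = u ^ (1 / 40 : ℝ) := ⟨_, rfl⟩
    have hv0 : 0 < v := by rw [hv]; positivity
    have hvu : v ^ 40 = u := by
      rw [hv, ← Real.rpow_natCast, ← Real.rpow_mul hu0.le]
      norm_num
    have hvK : 24 * CS * D ≤ v := by
      rw [← hvu] at huC
      exact le_of_pow_le_pow_left₀ (by norm_num) hv0.le huC
    have hv1 : 1 ≤ v := by linarith
    have hY0v : Y0 ≤ v ^ 5 := by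
      have h1 : Y0 ^ 8 ≤ (v ^ 5) ^ 8 := by
        rw [← pow_mul]
        norm_num
        rw [hvu]
        nlinarith
      exact le_of_pow_le_pow_left₀ (by norm_num) (by positivity) h1
    obtain ⟨m, hm⟩ : ∃ m : ℕ, m = ⌊v ^ 10⌋₊ := ⟨_, rfl⟩
    have hv10 : 1 ≤ v ^ 10 := one_le_pow₀ hv1
    have hm1 : 1 ≤ m := by
      rw [hm]
      exact Nat.le_floor (by simpa using hv10)
    have hmle : (m : ℝ) ≤ v ^ 10 := by
      rw [hm]
      exact Nat.floor_le (by positivity)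
    have hmlt : v ^ 10 < m + 1 := by
      rw [hm]
      exact Nat.lt_floor_add_one _
    obtain ⟨hY1, ha, hb, hc⟩ := arith hCS hD hvK hY01 hY0v hm1 hmle hmlt rfl
    obtain ⟨Y, hY⟩ : ∃ Y, Y = Y0 + Real.log m := ⟨_, rfl⟩
    rw [← hY] at hY1 ha hb hc
    have hm0 : (1 : ℝ) ≤ m := by exact_mod_cast hm1
    have hs4 : s2 ≤ 1 / 4 := hs2C.trans (one_div_le_one_div_of_le (by norm_num) hC4)
    have hsD : s2 ≤ 1 / D := hs2C.trans (one_div_le_one_div_of_le (by linarith) hCD')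
    have hUT := (hU s2 T hs2 hsD (by
      have := RR_mono (show T ≤ t + T by omega)
      linarith)).2.2.2 _ rfl
    have hsq : CS * B * (m : ℝ) ^ 5 * Y / s2 ≤ Real.sqrt t := by
      refine le_trans ?_ hBu
      have h1 : CS * B * (m : ℝ) ^ 5 * Y ≤ (24 * CS * D) ^ 40 * B * u ^ 2 := by
        calc CS * B * (m : ℝ) ^ 5 * Y = B * (m : ℝ) ^ 5 * (CS * Y) := by ring
          _ ≤ B * (v ^ 10) ^ 5 * ((24 * CS * D) ^ 40 * v ^ 30) := by gcongr
          _ = (24 * CS * D) ^ 40 * B * (v ^ 40) ^ 2 := by ring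
          _ = _ := by rw [hvu]
      gcongr
    have hmain := hraw N0 M W hW Ω P s2 κ (s2 / (1 - s2 ^ 2)) η w t T m B Y D hs2 hs4 hN ht hT hm1
      hB hN0 hG rfl (by rw [hY, hY0]) (by linarith) hUT hsq
    have hsub : {ω | ∑ z, w z * Zr W (cfg η ω) T z < Real.exp (-u)} ⊆
        {ω | ∑ z, w z * Zr W (cfg η ω) T z < Real.exp (-(CS * (m : ℝ) ^ 2 * Y ^ 2))} := by
      intro ω hω
      refine lt_of_lt_of_le hω (Real.exp_le_exp.2 ?_)
      rw [hvu] at hb
      linarith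
    refine (measureReal_mono hsub).trans (hmain.trans ?_)
    have hden : 1 ≤ CS * (1 + D * Y) := by nlinarith
    have hx1 : 1 / (CS * (1 + D * Y)) ≤ 1 := by
      rw [div_le_one (by linarith)]
      exact hden
    calc (1 - 1 / (CS * (1 + D * Y))) ^ m
        ≤ Real.exp (-(1 / (CS * (1 + D * Y)))) ^ m :=
          pow_le_pow_left₀ (by linarith) (Real.one_sub_le_exp_neg _) m
      _ = Real.exp (-((m : ℝ) / (CS * (1 + D * Y)))) := by
          rw [← Real.exp_nat_mul]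
          congr 1
          ring
      _ ≤ Real.exp (-(u ^ (1 / 10 : ℝ))) := by
          apply Real.exp_le_exp.2
          have h1 : u ^ (1 / 10 : ℝ) = v ^ 4 := by
            rw [hv, ← Real.rpow_natCast, ← Real.rpow_mul hu0.le]
            norm_num
          rw [h1, neg_le_neg_iff, le_div_iff₀ (by linarith)]
          exact hc

end Pool.Agent.H549.CW
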